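import Pool.Agent.L0h45.AV.Stm2

/-!
# Project AV (helper45): the module SE2, by helper60

The local condition at `2` of a Selmer cocycle (after `c2_sel` in `N922/PQ/Big4.lean`).
-/

set_option autoImplicit false
set_option linter.all false

open Polynomial IsDedekindDomain WeierstrassCurve WeierstrassCurve.Affine NumberField
open Pool.Agent.TH115.GD
open scoped Classical IntermediateField

namespace Pool.Agent.L0h60.AV

open Pool.Agent.N874.PP (sW IsBeta Rt)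
open Pool.Agent.N874.PM (PLoc Lies)
open Pool.Agent.N922.PQ (dsc IsCub Ov Loc2 PL2 S_GLR2 S_EMB S_TW2 ff ff_map pl2_congr)
open Pool.Agent.L0h45.AV (SelZ S_SE2)

section small

variable {a b : ℤ}

/-- the cubic polynomial has no root modulo `2` -/
theorem nt2 (ha : Odd a) (hb : Odd b) (z : ℤ) : ¬ (2 : ℤ) ∣ z ^ 3 + a * z + b := by
  intro h
  have h1 : Odd (z ^ 3 + a * z + b) := by
    refine Even.add_odd ?_ hb
    rcases Int.even_or_odd z with hz | hz
    · exact Even.add (by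
        rw [Int.even_pow]
        exact ⟨hz, by norm_num⟩) (hz.mul_left a)
    · exact Odd.add_odd hz.pow (ha.mul hz)
  rw [← Int.not_even_iff_odd] at h1
  exact h1 (even_iff_two_dvd.2 h)

theorem odd_b (ha : Odd a) (hsq : Squarefree (dsc a b)) : Odd b := by
  rw [← Int.not_even_iff_odd]
  rintro ⟨c, hc⟩
  have h1 : (2 : ℤ) * 2 ∣ dsc a b := ⟨a ^ 3 + 27 * c ^ 2, by
    unfold dsc
    rw [hc]
    ring⟩
  have h2 := hsq 2 h1
  rw [Int.isUnit_iff] at h2
  omega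

theorem not3 (hsq : Squarefree (dsc a b)) : ¬ (3 : ℤ) ∣ dsc a b := by
  intro h
  have h1 : (3 : ℤ) ∣ a := by
    have h2 : (3 : ℤ) ∣ a ^ 3 := by
      have h3 : (3 : ℤ) ∣ 4 * a ^ 3 := by
        have e : 4 * a ^ 3 = dsc a b - 3 * (9 * b ^ 2) := by
          unfold dsc
          ring
        rw [e]
        exact dvd_sub h (dvd_mul_right _ _)
      exact (IsCoprime.dvd_of_dvd_mul_left (by norm_num : IsCoprime (3 : ℤ) 4) h3)
    exact Int.prime_three.dvd_of_dvd_pow h2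
  obtain ⟨c, hc⟩ := h1
  have h4 : (3 : ℤ) * 3 ∣ dsc a b := ⟨12 * c ^ 3 + 3 * b ^ 2, by
    unfold dsc
    rw [hc]
    ring⟩
  have h5 := hsq 3 h4
  rw [Int.isUnit_iff] at h5
  omega

/-- The cubic polynomial has no zero in `ℚ_2`. -/
theorem no_root2 (h2 : ∀ z : ℤ, ¬ (2 : ℤ) ∣ z ^ 3 + a * z + b) (u : ℚ_[2]) :
    u ^ 3 + (a : ℚ_[2]) * u + (b : ℚ_[2]) ≠ 0 := by
  intro h0
  have hu : ‖u‖ ≤ 1 := by
    by_contra hlt
    rw [not_le] at hlt
    have ha : ‖(a : ℚ_[2])‖ ≤ 1 := Padic.norm_int_le_one a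
    have hb : ‖(b : ℚ_[2])‖ ≤ 1 := Padic.norm_int_le_one b
    have h1 : u ^ 3 = - ((a : ℚ_[2]) * u + (b : ℚ_[2])) := by linear_combination h0
    have h3 : ‖u‖ ^ 3 ≤ ‖u‖ := by
      rw [← norm_pow, h1, norm_neg]
      refine (Padic.nonarchimedean _ _).trans (max_le ?_ (hb.trans hlt.le))
      rw [norm_mul]
      exact mul_le_of_le_one_left (norm_nonneg _) ha
    have h4 : ‖u‖ < ‖u‖ ^ 3 := by
      have : ‖u‖ ^ 3 = ‖u‖ * (‖u‖ * ‖u‖) := by ring
      rw [this]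
      have h5 : 1 < ‖u‖ * ‖u‖ := by nlinarith
      nlinarith
    linarith
  let v : ℤ_[2] := ⟨u, hu⟩
  have hv : v ^ 3 + (a : ℤ_[2]) * v + (b : ℤ_[2]) = 0 := by
    apply Subtype.ext
    push_cast
    exact h0
  have h1 := congrArg (PadicInt.toZMod (p := 2)) hv
  rw [map_zero, map_add, map_add, map_mul, map_pow, map_intCast, map_intCast] at h1
  obtain ⟨z, hz⟩ := ZMod.intCast_surjective (PadicInt.toZMod v)
  rw [← hz] at h1
  apply h2 z
  have h3 : ((z ^ 3 + a * z + b : ℤ) : ZMod 2) = 0 := by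
    push_cast
    exact h1
  have h4 := (ZMod.intCast_zmod_eq_zero_iff_dvd _ 2).1 h3
  exact_mod_cast h4

theorem disc_ne (hd : dsc a b ≠ 0) : 4 * (a : ℚ) ^ 3 + 27 * (b : ℚ) ^ 2 ≠ 0 := by
  intro h
  apply hd
  have h1 : ((dsc a b : ℤ) : ℚ) = 0 := by
    unfold dsc
    push_cast
    exact h
  exact_mod_cast h1

end small

theorem t_SE2 (hGLR2 : S_GLR2) (hEMB : S_EMB) (hTW2 : S_TW2) : S_SE2 := by
  intro L _ _ a b θ hc hOa hOb hd f hf β h hβ hh
  obtain ⟨hf1, h2f, hloc⟩ := hf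
  have h2 := nt2 hOa hOb
  obtain ⟨w, j, hj⟩ := hEMB ℚ ℤ (algebraMap ℚ ℚ_[2])
  have h6 : (6 : ℚ) ≠ 0 := by norm_num
  have hPL := hGLR2 ℚ ℤ _ _ h6 (disc_ne hd) f hf1 h2f β h hβ hh w (fun t ht => by
    rw [map_intCast, map_intCast] at ht
    have h1 := congrArg j ht
    rw [map_zero, map_add, map_add, map_mul, map_pow, map_intCast, map_intCast] at h1
    exact no_root2 h2 (j t) h1) (hloc w)
  have e1 : (((a * 1 ^ 2 : ℤ)) : ℚ) = (a : ℚ) := by rw [one_pow, mul_one]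
  have e2 : (((b * 1 ^ 3 : ℤ)) : ℚ) = (b : ℚ) := by rw [one_pow, mul_one]
  have h3 := hTW2 ℚ (w.adicCompletion ℚ) j (algebraMap ℚ ℚ_[2]) hj a b 1 one_pos (by norm_num) h
    (by rw [e1, e2]; exact hPL)
  have e3 : h.comp (C (((1 : ℤ)) : ℚ) * X) = h := by
    rw [Int.cast_one, C_1, one_mul, comp_X]
  rw [e3] at h3
  intro h' hh'
  refine pl2_congr ?_ h3
  have h4 : ff ℚ a b ∣ h - h' := by
    rw [← hc.minpoly_eq]
    apply minpoly.dvd
    rw [map_sub, hh', sub_self]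
  have h5 := Polynomial.map_dvd (algebraMap ℚ ℚ_[2]) h4
  rw [ff_map, Polynomial.map_sub] at h5
  exact h5

end Pool.Agent.L0h60.AV
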