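import Pool.Agent.L0h60.AV.SE2

/-!
# Project AV (helper45): the module SEV, by helper60

The element of a Selmer cocycle has even valuations.
-/

set_option autoImplicit false
set_option linter.all false

open Polynomial IsDedekindDomain WeierstrassCurve WeierstrassCurve.Affine NumberField
open Pool.Agent.TH115.GD
open scoped Classical IntermediateField

namespace Pool.Agent.L0h60.AV

open Pool.Agent.N874.PP (Ev sW IsBeta Rt)
open Pool.Agent.N874.PM (PLoc Lies S_GLR S_LOC1M)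
open Pool.Agent.N922.PQ (dsc IsCub Ov S_P3 S_LIE one_mem_of)
open Pool.Agent.L0h45.AV (SelZ S_LO3 S_SEV)

section vals

variable {M R : Type} [Field M] [CommRing R] [IsDedekindDomain R] [Algebra R M] [IsFractionRing R M]

theorem ov_val (P : ℤ) (w : HeightOneSpectrum R) : Ov P w ↔ w.valuation M (P : M) < 1 := by
  have e : (P : M) = algebraMap R M (P : R) := by rw [map_intCast]
  rw [e, HeightOneSpectrum.valuation_lt_one_iff_mem]
  rfl

theorem val_le (P : ℤ) (w : HeightOneSpectrum R) : w.valuation M (P : M) ≤ 1 := by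
  have e : (P : M) = algebraMap R M (P : R) := by rw [map_intCast]
  rw [e]
  exact w.valuation_le_one _

theorem val_eq_of (P : ℤ) (w : HeightOneSpectrum R) (h : ¬ Ov P w) :
    w.valuation M (P : M) = 1 := by
  refine le_antisymm (val_le P w) ?_
  rw [← not_lt, ← ov_val]
  exact h

theorem ov_mul {P Q : ℤ} {w : HeightOneSpectrum R} (h : Ov (P * Q) w) : Ov P w ∨ Ov Q w := by
  unfold Ov at *
  rw [Int.cast_mul] at h
  exact w.isPrime.mem_or_mem h

/-- Squarefree numbers have valuation at most one. -/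
theorem val_sqfree {r : ℤ} (hr : Squarefree r) (v : HeightOneSpectrum ℤ) :
    WithZero.exp (-1 : ℤ) ≤ v.valuation ℚ (r : ℚ) := by
  have ecast : (r : ℚ) = algebraMap ℤ ℚ r := by simp
  rw [ecast]
  by_contra hlt
  rw [not_le] at hlt
  have hr0 : r ≠ 0 := hr.ne_zero
  have h0 : v.valuation ℚ (algebraMap ℤ ℚ r) ≠ 0 := by
    rw [Valuation.ne_zero_iff]
    rw [Ne, IsFractionRing.to_map_eq_zero_iff]
    exact hr0
  have h2 : v.valuation ℚ (algebraMap ℤ ℚ r) ≤ WithZero.exp (-((2 : ℕ) : ℤ)) := by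
    rw [← WithZero.exp_log h0, WithZero.exp_lt_exp] at hlt
    rw [← WithZero.exp_log h0, WithZero.exp_le_exp]
    push_cast
    omega
  rw [HeightOneSpectrum.valuation_of_algebraMap, HeightOneSpectrum.intValuation_le_pow_iff_dvd]
    at h2
  obtain ⟨g, hg⟩ := (IsPrincipalIdealRing.principal v.asIdeal).principal
  have hg' : v.asIdeal = Ideal.span {g} := hg
  rw [hg', Ideal.span_singleton_pow, Ideal.dvd_span_singleton, Ideal.mem_span_singleton, sq] at h2
  have hu := hr g h2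
  apply v.isPrime.ne_top
  rw [hg', Ideal.span_singleton_eq_top]
  exact hu

end vals

theorem t_SEV (hGLR : S_GLR) (hLOC1M : S_LOC1M) (hLIE : S_LIE) (hP3 : S_P3) (hLO3 : S_LO3) :
    S_SEV := by
  intro L O _ _ _ _ _ _ _ a b θ hc hsq hOa f hf β h hβ hh hne hN 𝔓
  obtain ⟨hf1, h2f, hloc⟩ := hf
  have hOb := odd_b hOa hsq
  have h2 := nt2 hOa hOb
  have h6 : (6 : ℚ) ≠ 0 := by norm_num
  have ed : 4 * (a : ℚ) ^ 3 + 27 * (b : ℚ) ^ 2 = ((dsc a b : ℤ) : ℚ) := by
    unfold dsc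
    push_cast
    ring
  have hroot : θ ^ 3 + algebraMap ℚ L (a : ℚ) * θ + algebraMap ℚ L (b : ℚ) = 0 := by
    rw [map_intCast, map_intCast]
    exact hc.root
  obtain ⟨w, hw, hO⟩ := hLIE ℚ L ℤ O 𝔓
  by_cases h2w : Ov 2 w
  · exact hP3 L O a b θ hc hsq 2 Int.prime_two h2 (aeval θ h) hne hN 𝔓 ((hO 2).1 h2w)
  have hv2 : w.valuation ℚ (2 : ℚ) = 1 := by
    have := val_eq_of (M := ℚ) 2 w h2w
    exact_mod_cast this
  have hPL : PLoc (w.adicCompletion ℚ) (a : ℚ) (b : ℚ) h :=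
    hGLR ℚ ℤ _ _ h6 (disc_ne hsq.ne_zero) f hf1 h2f β h hβ hh w hv2 (hloc w)
  by_cases h3w : Ov 3 w
  · refine hLO3 ℚ L ℤ O w 𝔓 hw (a : ℚ) (b : ℚ) θ h hroot (val_le a w) (val_le b w) ?_ hPL hne
    rw [ed]
    refine val_eq_of _ w fun hdw => ?_
    have hco : IsCoprime (3 : ℤ) (dsc a b) :=
      (Int.prime_three.irreducible.coprime_iff_not_dvd).2 (not3 hsq)
    exact one_mem_of hco h3w hdw
  have hv6 : w.valuation ℚ (6 : ℚ) = 1 := by
    have h7 : ¬ Ov 6 w := by
      intro h8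
      have e : (6 : ℤ) = 2 * 3 := by norm_num
      rw [e] at h8
      rcases ov_mul h8 with h8 | h8
      · exact h2w h8
      · exact h3w h8
    have := val_eq_of (M := ℚ) 6 w h7
    exact_mod_cast this
  have hdisc : WithZero.exp (-1 : ℤ) ≤ w.valuation ℚ (4 * (a : ℚ) ^ 3 + 27 * (b : ℚ) ^ 2) := by
    rw [ed]
    exact val_sqfree hsq w
  have e3 : algebraMap ℚ L 1 * θ = θ := by rw [map_one, one_mul]
  have e1 : (a : ℚ) * 1 ^ 2 = (a : ℚ) := by ring
  have e2 : (b : ℚ) * 1 ^ 3 = (b : ℚ) := by ring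
  have h3 := hLOC1M ℚ L ℤ O w 𝔓 hw (a : ℚ) (b : ℚ) 1 θ h hroot hv6 (val_le a w) (val_le b w)
    (map_one _) hdisc (by rw [e1, e2]; exact hPL) (by rw [e3]; exact hne)
  rw [e3] at h3
  exact h3

end Pool.Agent.L0h60.AV
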