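import Pool.Agent.L0h45.AV.Stm4
import Pool.Agent.L0h24.AV.DENn

/-!
# Project AV (helper45): the module DENe, by helper60

The density of the `b` with positive squarefree discriminant, `a` arbitrary; from `den` and `npos` in
`L0h24/AV/DENn.lean` (helper24).
-/

set_option autoImplicit false

namespace Pool.Agent.L0h60.AV

open Finset Filter Topology
open scoped Classical
open Pool.Agent.N922.PQ (dsc)
open Pool.Agent.L0h45.AV
open Pool.Agent.L0h24.AV (den npos)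

/-- module DENe -/
theorem t_DENe (hP : S_PELLn) : S_DENe := by
  intro a ha ha3
  obtain ⟨⟨c, hc, Y₁, hY₁⟩, hB⟩ := den hP a ha ha3
  obtain ⟨k, hk⟩ : ∃ k : ℝ, k = 2 * (a : ℝ) ^ 2 + 1 := ⟨_, rfl⟩
  have hk0 : 0 < k := by rw [hk]; positivity
  have hN := npos a ha
  rw [← hk] at hN
  refine ⟨?_, ?_⟩
  · obtain ⟨Y₂, hY₂⟩ : ∃ Y₂ : ℕ, 2 * k / c ≤ (Y₂ : ℝ) := exists_nat_ge _
    refine ⟨c / 2, by positivity, max Y₁ Y₂, fun Y hY => ?_⟩
    have h1 := hY₁ Y ((le_max_left _ _).trans hY)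
    have h2 : 2 * k / c ≤ (Y : ℝ) := hY₂.trans (by exact_mod_cast (le_max_right _ _).trans hY)
    rw [div_le_iff₀ hc] at h2
    have h3 := hN Y
    linarith
  · intro ε hε
    obtain ⟨Z₀, hZ₀⟩ := hB (ε / 2) (by positivity)
    refine ⟨Z₀, fun Z hZ => ?_⟩
    obtain ⟨Y₂, hY₂⟩ := hZ₀ Z hZ
    obtain ⟨Y₃, hY₃⟩ : ∃ Y₃ : ℕ, (2 / ε + 2) * k / c ≤ (Y₃ : ℝ) := exists_nat_ge _
    refine ⟨max (max Y₁ Y₂) Y₃, fun Y hY => ?_⟩
    have hYa : Y₁ ≤ Y := (le_max_left _ _).trans ((le_max_left _ _).trans hY)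
    have hYb : Y₂ ≤ Y := (le_max_right _ _).trans ((le_max_left _ _).trans hY)
    have hYc : Y₃ ≤ Y := (le_max_right _ _).trans hY
    have h1 := hY₁ Y hYa
    have h2 := hY₂ Y hYb
    have h3 : (2 / ε + 2) * k / c ≤ (Y : ℝ) := hY₃.trans (by exact_mod_cast hYc)
    rw [div_le_iff₀ hc] at h3
    have h4 := hN Y
    refine h2.trans ?_
    obtain ⟨P, hPP⟩ : ∃ P : ℝ, P = (((Icc (-(Y : ℤ)) Y).filter
      (fun b => 0 < dsc a b ∧ Squarefree (dsc a b))).card : ℝ) := ⟨_, rfl⟩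
    obtain ⟨S, hSS⟩ : ∃ S : ℝ, S = (((Icc (-(Y : ℤ)) Y).filter
      (fun b => Squarefree (dsc a b))).card : ℝ) := ⟨_, rfl⟩
    rw [← hPP] at h4
    rw [← hSS] at h4 h1
    rw [← hPP, ← hSS]
    have h5 : (2 / ε + 1) * k ≤ P := by linarith
    have h6 : ε / 2 * ((2 / ε + 1) * k) ≤ ε / 2 * P := mul_le_mul_of_nonneg_left h5 (by positivity)
    have h7 : ε / 2 * ((2 / ε + 1) * k) = (1 + ε / 2) * k := by field_simp
    have h8 : (1 + ε / 2) * S ≤ (1 + ε / 2) * (P + k) := mul_le_mul_of_nonneg_left h4 (by positivity)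
    rw [h7] at h6
    linarith

end Pool.Agent.L0h60.AV
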