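import Pool.Agent.L0h45.AV.Stm3

set_option autoImplicit false
set_option linter.all false

/-!
# Project AV, module MAIn: the reduced tuples in given classes, any sign of `a`

Adapted from `L0h90/AV/MAI.lean` (helper90), by helper60.
-/

open Finset Filter Topology
open scoped Classical

namespace Pool.Agent.L0h60.AV.MAIn

open Pool.Agent.N874.PP (Tup chA chB gq tau Ev)
open Pool.Agent.L0h45.LR (tn Bx Cgr)
open Pool.Agent.L0h45.AV

/-- minus a tuple -/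
def ng {R : Type} [CommRing R] (B : Tup R) : Tup R := ⟨-B.x, -B.y, -B.c, -B.z, -B.w⟩

lemma ng_ng {R : Type} [CommRing R] (B : Tup R) : ng (ng B) = B := by
  ext <;> simp [ng]

lemma ng_inj : Function.Injective (ng : Tup ℤ → Tup ℤ) := fun B B' h => by
  rw [← ng_ng B, h, ng_ng]

lemma chA_ng (B : Tup ℤ) : chA (ng B) = chA B := by
  simp only [chA, ng]
  ring

lemma chB_ng (B : Tup ℤ) : chB (ng B) = -chB B := by
  simp only [chB, ng]
  ring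

lemma chA_toR (B : Tup ℤ) : chA (toR B) = ((chA B : ℤ) : ℝ) := by
  simp only [chA, toR]
  push_cast
  ring

lemma chB_toR (B : Tup ℤ) : chB (toR B) = ((chB B : ℤ) : ℝ) := by
  simp only [chB, toR]
  push_cast
  ring

lemma rd_ng {B : Tup ℤ} {v : ℝ} (h : Rd B v) : Rd (ng B) v := by
  obtain ⟨p, θ, C, S, hF, hB⟩ := h
  refine ⟨p, -θ, -C, -S, hF, ?_⟩
  have e : toR (ng B) = ng (toR B) := by
    ext <;> simp [toR, ng]
  rw [e, hB]
  ext <;> simp only [ng, Bp] <;> ring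

lemma ok_ng {M : ℕ} {a : ℤ} {β : Tup ℤ} (h : Ok M a β) : Ok M a (ng β) := by
  refine ⟨by rw [chA_ng]; exact h.A, ?_, ?_⟩
  · intro h2
    have h3 := h.two (dvd_neg.1 h2)
    exact ⟨fun h4 => h3.1 (dvd_neg.1 h4), fun h4 => h3.2 (dvd_neg.1 h4)⟩
  · intro p hp hp2 hpM hx hy
    obtain ⟨h3, h4, h5, h6⟩ := h.odd p hp hp2 hpM (dvd_neg.1 hx) (dvd_neg.1 hy)
    exact ⟨h3, h4, fun h7 => h5 (dvd_neg.1 h7), fun h7 => h6 (dvd_neg.1 h7)⟩

lemma cgr_ng {M : ℕ} {β B : Tup ℤ} (h : Cgr M β B) : Cgr M (ng β) (ng B) := by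
  have key : ∀ u v : ℤ, (M : ℤ) ∣ u - v → (M : ℤ) ∣ -u - -v := by
    intro u v h
    have : -u - -v = -(u - v) := by ring
    rw [this]
    exact dvd_neg.2 h
  exact ⟨key _ _ h.x, key _ _ h.y, key _ _ h.c, key _ _ h.z, key _ _ h.w⟩

lemma box (h : S_BDSn) {B : Tup ℤ} {v X T : ℝ} (hX : 0 ≤ X) (hT : 1 ≤ T) (hv : v ≤ T)
    (hR : Rd B v) (haX : |((chA B : ℤ) : ℝ)| ≤ X ^ 2)
    (hbX : |((chB B : ℤ) : ℝ)| ≤ X ^ 3) : Bx (288 * T ^ 2 * X) 1 B := by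
  obtain ⟨p, θ, C, S, hF, hB⟩ := hR
  have hA : chA (Bp p v θ C S) = ((chA B : ℤ) : ℝ) := by rw [← hB, chA_toR]
  have hBB : chB (Bp p v θ C S) = ((chB B : ℤ) : ℝ) := by rw [← hB, chB_toR]
  obtain ⟨-, bx, bY, bc, bz, bw⟩ := h p v θ C S X hF hX
    (by rw [hA]; exact haX) (by rw [hBB]; exact hbX)
  rw [← hB] at bx bY bc bz bw
  have e1 : (toR B).x = (B.x : ℝ) := rfl
  have e2 : (toR B).y = (B.y : ℝ) := rfl
  have e3 : (toR B).c = (B.c : ℝ) := rfl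
  have e4 : (toR B).z = (B.z : ℝ) := rfl
  have e5 : (toR B).w = (B.w : ℝ) := rfl
  rw [e1] at bx
  rw [e2] at bY
  rw [e3] at bc
  rw [e4] at bz
  rw [e5] at bw
  obtain ⟨hp0, hp1, hv0, hpv⟩ := hF
  have hv4 : 1 / 4 ≤ v ^ 2 := by nlinarith
  have hv2 : 1 / 2 ≤ v := by nlinarith
  have hT2 : 1 ≤ T ^ 2 := one_le_pow₀ hT
  have hTT : T ≤ T ^ 2 := by nlinarith
  have hvT2 : v ^ 2 ≤ T ^ 2 := pow_le_pow_left₀ hv0.le hv 2
  have hXT : X ≤ T ^ 2 * X := by nlinarith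
  have hax := abs_nonneg (B.x : ℝ)
  have hay := abs_nonneg (B.y : ℝ)
  refine ⟨?_, ?_, ?_, ?_, ?_⟩
  · have : |(B.x : ℝ)| * (1 / 4) ≤ 72 * X := (mul_le_mul_of_nonneg_left hv4 hax).trans bx
    push_cast
    linarith
  · have : |(B.y : ℝ)| * (1 / 2) ≤ 72 * X := (mul_le_mul_of_nonneg_left hv2 hay).trans bY
    push_cast
    linarith
  · linarith
  · have : 72 * X * v ≤ 72 * X * T ^ 2 := mul_le_mul_of_nonneg_left (hv.trans hTT) (by linarith)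
    push_cast
    linarith
  · have : 72 * X * v ^ 2 ≤ 72 * X * T ^ 2 := mul_le_mul_of_nonneg_left hvT2 (by linarith)
    push_cast
    linarith

lemma bo_fin (M : ℕ) : (Bo M).Finite := by
  have h : Bo M ⊆ (fun q : ℤ × ℤ × ℤ × ℤ × ℤ =>
      (⟨q.1, q.2.1, q.2.2.1, q.2.2.2.1, q.2.2.2.2⟩ : Tup ℤ)) ''
      (Set.Ico (0 : ℤ) M ×ˢ (Set.Ico (0 : ℤ) M ×ˢ (Set.Ico (0 : ℤ) M ×ˢ
        (Set.Ico (0 : ℤ) M ×ˢ Set.Ico (0 : ℤ) M)))) := by
    rintro B ⟨h1, h2, h3, h4, h5, h6, h7, h8, h9, h10⟩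
    exact ⟨(B.x, B.y, B.c, B.z, B.w), ⟨⟨h1, h2⟩, ⟨h3, h4⟩, ⟨h5, h6⟩, ⟨h7, h8⟩, ⟨h9, h10⟩⟩, rfl⟩
  exact (((Set.finite_Ico _ _).prod ((Set.finite_Ico _ _).prod ((Set.finite_Ico _ _).prod
    ((Set.finite_Ico _ _).prod (Set.finite_Ico _ _))))).image _).subset h

/-- **MAIn** -/
theorem t_MAIn (h1 : S_BDSn) (h2 : S_CUSn) (h3 : Pool.Agent.L0h45.LR.S_TRV) (h4 : S_RGPn) :
    S_MAIn := by
  obtain ⟨K, hK, hcus⟩ := h2
  obtain ⟨K1, hK1, htrv⟩ := h3 1 le_rfl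
  obtain ⟨η, hη0, hηt, hrgp⟩ := h4
  refine ⟨η, hη0, hηt, fun Z M hM a ε hε => ?_⟩
  obtain ⟨T, hT⟩ : ∃ T : ℕ, T = ⌈4 * K / ε⌉₊ + 1 := ⟨_, rfl⟩
  have hT1 : 1 ≤ T := by omega
  have hT1' : (1 : ℝ) ≤ T := by exact_mod_cast hT1
  have hKT : K / T ≤ ε / 4 := by
    have h5 : 4 * K / ε ≤ T := by
      rw [hT]
      push_cast
      linarith [Nat.le_ceil (4 * K / ε)]
    rw [div_le_iff₀ hε] at h5
    rw [div_le_iff₀ (by linarith)]
    linarith
  obtain ⟨D, hD⟩ : ∃ D : ℝ, D = 288 * (T : ℝ) ^ 2 := ⟨_, rfl⟩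
  have hD1 : 1 ≤ D := by
    rw [hD]
    nlinarith
  have hD0 : 0 < D := by linarith
  obtain ⟨s, hs⟩ : ∃ s : ℝ, s = min 1 (ε / (8 * K1 * D ^ 3)) := ⟨_, rfl⟩
  have hs0 : 0 < s := by
    rw [hs]
    exact lt_min one_pos (by positivity)
  have hs1 : s ≤ 1 := by rw [hs]; exact min_le_left _ _
  have hs2 : K1 * s * D ^ 3 ≤ ε / 8 := by
    have h5 : s ≤ ε / (8 * K1 * D ^ 3) := by rw [hs]; exact min_le_right _ _
    rw [le_div_iff₀ (by positivity)] at h5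
    linarith
  obtain ⟨L₀, hL₀⟩ := htrv a (s ^ 2) (ε / (8 * D ^ 3)) (by positivity)
    (pow_le_one₀ hs0.le hs1) (by positivity)
  obtain ⟨N, hN⟩ : ∃ N : ℕ, ∀ W : Finset (Tup ℤ), (∀ β ∈ W, β ∈ Bo M) → W.card ≤ N := by
    refine ⟨(bo_fin M).toFinset.card, fun W hW => Finset.card_le_card fun β hβ => ?_⟩
    exact (Set.Finite.mem_toFinset _).2 (hW β hβ)
  obtain ⟨X₁, hX₁⟩ := hrgp Z M hM a T (s ^ 2 * D) (ε / (4 * (N + 1))) (by positivity)
    (by positivity) (by positivity)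
  refine ⟨⌈max (max L₀ X₁) |(a : ℝ)|⌉₊ + 1, fun X hX W hW S hS => ?_⟩
  have hXr : max (max L₀ X₁) |(a : ℝ)| + 1 ≤ X := by
    have h5 : ((⌈max (max L₀ X₁) |(a : ℝ)|⌉₊ + 1 : ℕ) : ℝ) ≤ X := by exact_mod_cast hX
    push_cast at h5
    linarith [Nat.le_ceil (max (max L₀ X₁) |(a : ℝ)|)]
  have hXL : L₀ ≤ X := by
    linarith [le_max_left L₀ X₁, le_max_left (max L₀ X₁) |(a : ℝ)|]
  have hXX : X₁ ≤ X := by
    linarith [le_max_right L₀ X₁, le_max_left (max L₀ X₁) |(a : ℝ)|]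
  have hXa : |(a : ℝ)| + 1 ≤ X := by linarith [le_max_right (max L₀ X₁) |(a : ℝ)|]
  have ha1 : 0 ≤ |(a : ℝ)| := abs_nonneg _
  have hX1 : (1 : ℝ) ≤ X := by linarith
  have hX0 : (0 : ℝ) ≤ X := by linarith
  have hX1n : 1 ≤ X := by exact_mod_cast hX1
  have haX2 : |(a : ℝ)| ≤ (X : ℝ) ^ 2 := by nlinarith
  have haX2' : |a| ≤ (X : ℤ) ^ 2 := by exact_mod_cast haX2
  have hDX : L₀ ≤ D * X := by nlinarith
  obtain ⟨P, hP⟩ : ∃ P : Tup ℤ → Tup ℤ → Prop, P = fun β B => B.y ≠ 0 ∧ chA B = a ∧ Cgr M β B ∧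
    |((chB B : ℤ) : ℝ)| ≤ (X : ℝ) ^ 3 ∧ s ^ 2 * D * X ≤ B.x ∧ ∃ v : ℝ, v ≤ T ∧ Rd B v := ⟨_, rfl⟩
  obtain ⟨S1, hS1⟩ : ∃ S1 : Finset (Tup ℤ), S1 = S.filter
    (fun B => ∃ v : ℝ, (T : ℝ) ≤ v ∧ Rd B v) := ⟨_, rfl⟩
  obtain ⟨S2, hS2⟩ : ∃ S2 : Finset (Tup ℤ), S2 = S.filter
    (fun B => Bx (D * X) 1 B ∧ (|(B.x : ℝ)| * ((1 : ℕ) : ℝ) ^ 2 ≤ s ^ 2 * (D * X) ∨
      |(B.y : ℝ)| * ((1 : ℕ) : ℝ) ≤ s ^ 2 * (D * X))) := ⟨_, rfl⟩
  have hbS : ∀ B ∈ S, |((chB B : ℤ) : ℝ)| ≤ (X : ℝ) ^ 3 := by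
    intro B hB
    have := (hS B hB).2.2.1
    exact_mod_cast this
  have hcov : S ⊆ (S1 ∪ S2) ∪ (W.biUnion (fun β => S.filter (P β)) ∪
      W.biUnion (fun β => S.filter (fun B => P (ng β) (ng B)))) := by
    intro B hB
    obtain ⟨g1, g2, g3, -, ⟨v, hv⟩, β, hβ, hβB⟩ := hS B hB
    rw [mem_union, mem_union, mem_union]
    by_cases hTv : (T : ℝ) ≤ v
    · left; left
      rw [hS1, mem_filter]
      exact ⟨hB, v, hTv, hv⟩
    · push Not at hTv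
      have hbox : Bx (D * X) 1 B := by
        rw [hD]
        exact box h1 hX0 hT1' hTv.le hv (by rw [g2]; exact haX2) (hbS B hB)
      by_cases hsm : |(B.x : ℝ)| * ((1 : ℕ) : ℝ) ^ 2 ≤ s ^ 2 * (D * X) ∨
          |(B.y : ℝ)| * ((1 : ℕ) : ℝ) ≤ s ^ 2 * (D * X)
      · left; right
        rw [hS2, mem_filter]
        exact ⟨hB, hbox, hsm⟩
      · right
        push Not at hsm
        obtain ⟨k1, k2⟩ := hsm
        have hnn : 0 ≤ s ^ 2 * (D * X) := by positivity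
        have hy0 : B.y ≠ 0 := by
          intro h0
          rw [h0] at k2
          simp at k2
          linarith
        rw [Nat.cast_one, one_pow, mul_one] at k1
        rcases lt_or_gt_of_ne g1 with hneg | hpos
        · right
          rw [mem_biUnion]
          refine ⟨β, hβ, ?_⟩
          rw [mem_filter, hP]
          refine ⟨hB, ?_, ?_, cgr_ng hβB, ?_, ?_, v, hTv.le, rd_ng hv⟩
          · show -B.y ≠ 0
            exact neg_ne_zero.2 hy0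
          · rw [chA_ng, g2]
          · rw [chB_ng]
            push_cast
            rw [abs_neg]
            exact hbS B hB
          · have e : ((ng B).x : ℝ) = |(B.x : ℝ)| := by
              have : (B.x : ℝ) < 0 := by exact_mod_cast hneg
              rw [abs_of_neg this]
              show ((-B.x : ℤ) : ℝ) = -(B.x : ℝ)
              push_cast
              rfl
            rw [e]
            linarith
        · left
          rw [mem_biUnion]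
          refine ⟨β, hβ, ?_⟩
          rw [mem_filter, hP]
          refine ⟨hB, hy0, g2, hβB, hbS B hB, ?_, v, hTv.le, hv⟩
          have : (0 : ℝ) < B.x := by exact_mod_cast hpos
          rw [abs_of_pos this] at k1
          linarith
  -- the pieces
  have c1 : (S1.card : ℝ) ≤ ε / 4 * (X : ℝ) ^ 3 := by
    have h5 := hcus a X T haX2' hT1 hX1n S1 (by
      intro B hB
      rw [hS1, mem_filter] at hB
      obtain ⟨g1, g2, g3, g4, -, -⟩ := hS B hB.1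
      exact ⟨g1, g2, g3, g4, hB.2⟩)
    refine h5.trans ?_
    have e : K * (X : ℝ) ^ 3 / T = K / T * (X : ℝ) ^ 3 := by ring
    rw [e]
    exact mul_le_mul_of_nonneg_right hKT (by positivity)
  have c2 : (S2.card : ℝ) ≤ ε / 4 * (X : ℝ) ^ 3 := by
    have h5 := hL₀ (D * X) hDX S2 (by
      intro B hB
      rw [hS2, mem_filter] at hB
      obtain ⟨g1, g2, g3, -, -, -⟩ := hS B hB.1
      exact ⟨g1, g2, hB.2⟩)
    refine h5.trans ?_
    rw [Real.sqrt_sq hs0.le]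
    have e : (K1 * s + ε / (8 * D ^ 3)) * (D * X) ^ 3 = (K1 * s * D ^ 3 + ε / 8) * (X : ℝ) ^ 3 := by
      field_simp
    rw [e]
    exact mul_le_mul_of_nonneg_right (by linarith) (by positivity)
  obtain ⟨R, hR⟩ : ∃ R : ℝ, R = ((1 + η Z) * (Real.pi ^ 2 / 2) / (M : ℝ) ^ 4 + ε / (4 * (N + 1))) *
    (X : ℝ) ^ 3 := ⟨_, rfl⟩
  have c3 : ∀ β ∈ W, ((S.filter (P β)).card : ℝ) ≤ R := by
    intro β hβ
    rw [hR]
    refine hX₁ X hXX β (hW β hβ).2 _ fun B hB => ?_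
    rw [mem_filter, hP] at hB
    exact hB.2
  have c4 : ∀ β ∈ W, ((S.filter (fun B => P (ng β) (ng B))).card : ℝ) ≤ R := by
    intro β hβ
    rw [← card_image_of_injective _ ng_inj, hR]
    refine hX₁ X hXX (ng β) (ok_ng (hW β hβ).2) _ fun B hB => ?_
    obtain ⟨B', hB', rfl⟩ := mem_image.1 hB
    rw [mem_filter, hP] at hB'
    exact hB'.2
  have sumle : ∀ F : Tup ℤ → Finset (Tup ℤ), (∀ β ∈ W, ((F β).card : ℝ) ≤ R) →
      ((W.biUnion F).card : ℝ) ≤ W.card * R := by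
    intro F hF
    have h5 : ((W.biUnion F).card : ℝ) ≤ ∑ β ∈ W, ((F β).card : ℝ) := by
      exact_mod_cast card_biUnion_le
    refine h5.trans ((sum_le_sum hF).trans ?_)
    rw [sum_const, nsmul_eq_mul]
  have c5 := sumle _ c3
  have c6 := sumle _ c4
  have hWN : (W.card : ℝ) ≤ N := by exact_mod_cast hN W fun β hβ => (hW β hβ).1
  have hR2 : 2 * (W.card * R) ≤ ((1 + η Z) * (Real.pi ^ 2 * W.card) / (M : ℝ) ^ 4 + ε / 2) *
      (X : ℝ) ^ 3 := by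
    have e : 2 * (W.card * R) = ((1 + η Z) * (Real.pi ^ 2 * W.card) / (M : ℝ) ^ 4 +
        (W.card : ℝ) / (N + 1) * (ε / 2)) * (X : ℝ) ^ 3 := by
      rw [hR]
      field_simp
      ring
    rw [e]
    apply mul_le_mul_of_nonneg_right _ (by positivity)
    have h5 : (W.card : ℝ) / (N + 1) ≤ 1 := by
      rw [div_le_one (by positivity)]
      linarith
    nlinarith
  have hcard : (S.card : ℝ) ≤ (S1.card + S2.card) +
      ((W.biUnion (fun β => S.filter (P β))).card +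
        (W.biUnion (fun β => S.filter (fun B => P (ng β) (ng B)))).card) := by
    have h5 := (card_le_card hcov).trans (card_union_le _ _)
    have h6 := card_union_le S1 S2
    have h7 := card_union_le (W.biUnion (fun β => S.filter (P β)))
      (W.biUnion (fun β => S.filter (fun B => P (ng β) (ng B))))
    have h8 := h5.trans (Nat.add_le_add h6 h7)
    exact_mod_cast h8
  have e : ((1 + η Z) * (Real.pi ^ 2 * W.card) / (M : ℝ) ^ 4 + ε) * (X : ℝ) ^ 3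
      = ((1 + η Z) * (Real.pi ^ 2 * W.card) / (M : ℝ) ^ 4 + ε / 2) * (X : ℝ) ^ 3 +
        ε / 4 * (X : ℝ) ^ 3 + ε / 4 * (X : ℝ) ^ 3 := by ring
  rw [e]
  linarith

end Pool.Agent.L0h60.AV.MAIn
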