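import Pool.Agent.L0h45.AV.Stm4
import Pool.Agent.L0h60.AV.SEV

/-!
# Project AV (helper45): the module SEVe, by helper60

The element of a Selmer cocycle has even valuations, `a` arbitrary.
-/

set_option autoImplicit false
set_option linter.all false

open Polynomial IsDedekindDomain WeierstrassCurve WeierstrassCurve.Affine NumberField
open Pool.Agent.TH115.GD
open scoped Classical IntermediateField

namespace Pool.Agent.L0h60.AV

open Pool.Agent.N874.PP (Ev sW IsBeta Rt)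
open Pool.Agent.N874.PM (PLoc Lies S_GLR S_LOC1M)
open Pool.Agent.N922.PQ (dsc IsCub Ov S_P3 S_LIE one_mem_of)
open Pool.Agent.L0h45.AV (SelZ S_LO3 S_GLRe S_SEVe)

theorem not2 {a b : ℤ} (hsq : Squarefree (dsc a b)) : ¬ (2 : ℤ) ∣ dsc a b := by
  intro h
  have h1 : (2 : ℤ) ∣ b := by
    have h3 : (2 : ℤ) ∣ 27 * b ^ 2 := by
      have e : 27 * b ^ 2 = dsc a b - 2 * (2 * a ^ 3) := by
        unfold dsc
        ring
      rw [e]
      exact dvd_sub h (dvd_mul_right _ _)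
    have h2 : (2 : ℤ) ∣ b ^ 2 :=
      IsCoprime.dvd_of_dvd_mul_left (by norm_num : IsCoprime (2 : ℤ) 27) h3
    exact Int.prime_two.dvd_of_dvd_pow h2
  obtain ⟨c, hc⟩ := h1
  have h4 : (2 : ℤ) * 2 ∣ dsc a b := ⟨a ^ 3 + 27 * c ^ 2, by
    unfold dsc
    rw [hc]
    ring⟩
  have h5 := hsq 2 h4
  rw [Int.isUnit_iff] at h5
  omega

theorem t_SEVe (hGLR : S_GLRe) (hLOC1M : S_LOC1M) (hLIE : S_LIE) (hLO3 : S_LO3) : S_SEVe := by
  intro L O _ _ _ _ _ _ _ a b θ hc hsq f hf β h hβ hh hne 𝔓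
  obtain ⟨hf1, h2f, hloc⟩ := hf
  have h6 : (6 : ℚ) ≠ 0 := by norm_num
  have ed : 4 * (a : ℚ) ^ 3 + 27 * (b : ℚ) ^ 2 = ((dsc a b : ℤ) : ℚ) := by
    unfold dsc
    push_cast
    ring
  have hroot : θ ^ 3 + algebraMap ℚ L (a : ℚ) * θ + algebraMap ℚ L (b : ℚ) = 0 := by
    rw [map_intCast, map_intCast]
    exact hc.root
  obtain ⟨w, hw, hO⟩ := hLIE ℚ L ℤ O 𝔓
  have hPL : PLoc (w.adicCompletion ℚ) (a : ℚ) (b : ℚ) h :=
    hGLR ℚ ℤ _ _ h6 (disc_ne hsq.ne_zero) f hf1 h2f β h hβ hh w (hloc w)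
  have key : ∀ P : ℤ, Prime P → ¬ P ∣ dsc a b → Ov P w → Ev 𝔓 (aeval θ h) := by
    intro P hP hnd hPw
    refine hLO3 ℚ L ℤ O w 𝔓 hw (a : ℚ) (b : ℚ) θ h hroot (val_le a w) (val_le b w) ?_ hPL hne
    rw [ed]
    refine val_eq_of _ w fun hdw => ?_
    exact one_mem_of ((hP.irreducible.coprime_iff_not_dvd).2 hnd) hPw hdw
  by_cases h2w : Ov 2 w
  · exact key 2 Int.prime_two (not2 hsq) h2w
  by_cases h3w : Ov 3 w
  · exact key 3 Int.prime_three (not3 hsq) h3w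
  have hv6 : w.valuation ℚ (6 : ℚ) = 1 := by
    have h7 : ¬ Ov 6 w := by
      intro h8
      have e : (6 : ℤ) = 2 * 3 := by norm_num
      rw [e] at h8
      rcases ov_mul h8 with h8 | h8
      · exact h2w h8
      · exact h3w h8
    have := val_eq_of (M := ℚ) 6 w h7
    exact_mod_cast this
  have hdisc : WithZero.exp (-1 : ℤ) ≤ w.valuation ℚ (4 * (a : ℚ) ^ 3 + 27 * (b : ℚ) ^ 2) := by
    rw [ed]
    exact val_sqfree hsq w
  have e3 : algebraMap ℚ L 1 * θ = θ := by rw [map_one, one_mul]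
  have e1 : (a : ℚ) * 1 ^ 2 = (a : ℚ) := by ring
  have e2 : (b : ℚ) * 1 ^ 3 = (b : ℚ) := by ring
  have h3 := hLOC1M ℚ L ℤ O w 𝔓 hw (a : ℚ) (b : ℚ) 1 θ h hroot hv6 (val_le a w) (val_le b w)
    (map_one _) hdisc (by rw [e1, e2]; exact hPL) (by rw [e3]; exact hne)
  rw [e3] at h3
  exact h3

end Pool.Agent.L0h60.AV
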